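import Pool.Agent.Y76.PC.Gens
import Pool.Agent.H307R3.PC.Codim

/-!
# Maximal commutative subalgebras of maximal dimension with arbitrarily many generators

For `g = sl₂ ⊕ sl₂` with the swap, `k = g₀ ⋉ g₁` is the Takiff algebra of `sl₂`; it has the codim-3
property. With `f, h ∈ g₀` and `εf ∈ g₁`, the subalgebra `B d` (`d ≥ 1`) of `S(k)` generated by the
two basic invariants and the `d + 1` elements `(εf)^i f^(d-i) h` is maximal commutative, of maximal
dimension, and its minimal number of generators is exactly `d + 3`. So there is no bound on the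
number of generators, the `B d` are pairwise non-isomorphic, and `B d` is not polynomial for
`d ≥ 2`.
-/

set_option autoImplicit false

universe u

namespace Pool.Agent.Results.MP_26edac_al.UnboundedGenerators

open Module Pool.Agent.H307R3.PC Pool.Agent.H307R3.PC.G
open Pool.Agent.H307R3.PC.Core (cst D D_X D_Cmul pb pb_X pb_skew pb_leibniz)
open Pool.Agent.Y76.PC (MinGens MinGens.congr MinGens.unique A minGens commutative maximal trdeg_A)

/-- Here `ι : g → S` is (the canonical map to) a symmetric algebra of `g`. For the Lie-Poisson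
bracket `P` of the contraction there are maximal commutative subalgebras `B d` of maximal dimension
with exactly `d + 3` as minimal number of generators, for all `d ≥ 1`; for `d ≥ 2` they are not
polynomial, and they are pairwise non-isomorphic. -/
def UnboundedGens {F g S : Type*} [Field F] [LieRing g] [LieAlgebra F g] [CommRing S] [Algebra F S]
    (θ : g →ₗ⁅F⁆ g) (ι : g →ₗ[F] S) : Prop :=
  ∃ (P : S → S → S) (B : ℕ → Subalgebra F S), IsLiePoisson θ ι P ∧
    (∀ d, 1 ≤ d → MaxComm P (B d) ∧ MaxDim θ (B d) ∧ MinGens F (B d) (d + 3)) ∧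
    (∀ d, 2 ≤ d → ¬ IsPolynomial (B d)) ∧
    ∀ c d, 1 ≤ c → 1 ≤ d → Nonempty (B c ≃ₐ[F] B d) → c = d

variable {F : Type u} [Field F]

/-- the symmetric algebra in coordinates -/
noncomputable def e (F : Type u) [Field F] :
    SymmetricAlgebra F (G F) ≃ₐ[F] MvPolynomial (Fin 6) F :=
  SymmetricAlgebra.equivMvPolynomial bas

/-- the linear form with given coefficients -/
noncomputable def lin (x : G F) : MvPolynomial (Fin 6) F :=
  ∑ i, MvPolynomial.C (x i) * MvPolynomial.X i

lemma e_iota (x : G F) : e F (SymmetricAlgebra.ι F (G F) x) = lin x := by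
  conv_lhs => rw [expand x]
  rw [map_sum, map_sum, lin]
  apply Finset.sum_congr rfl
  intro i _
  rw [map_smul, map_smul, e, SymmetricAlgebra.equivMvPolynomial_ι_apply,
    MvPolynomial.smul_eq_C_mul]

lemma pb_lin (x y : G F) : pb F (lin x) (lin y) = lin (br 0 x y) := by
  have h1 : ∀ z : G F, ∀ i, D F i (lin z) = ∑ j, MvPolynomial.C (z j) * cst F i j := by
    intro z i
    rw [lin, map_sum]
    apply Finset.sum_congr rfl
    intro j _
    rw [D_Cmul, D_X]
  have h2 : pb F (lin x) (lin y) = ∑ i, MvPolynomial.C (x i) * D F i (lin y) := by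
    conv_lhs => rw [lin]
    rw [map_sum, LinearMap.sum_apply]
    apply Finset.sum_congr rfl
    intro i _
    rw [← MvPolynomial.smul_eq_C_mul, map_smul, LinearMap.smul_apply, pb_X,
      MvPolynomial.smul_eq_C_mul]
  rw [h2]
  simp only [h1]
  simp only [Fin.sum_univ_six, lin, cst, Matrix.cons_val, Matrix.cons_val_zero,
    Matrix.cons_val_one, br0, br1, br2, br3, br4, br5, map_add, map_sub, map_mul, map_zero,
    map_ofNat]
  ring

/-- the Lie-Poisson bracket on the symmetric algebra -/
noncomputable def P (F : Type u) [Field F] (a b : SymmetricAlgebra F (G F)) :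
    SymmetricAlgebra F (G F) := (e F).symm (pb F (e F a) (e F b))

lemma P_apply (a b : SymmetricAlgebra F (G F)) : P F a b = (e F).symm (pb F (e F a) (e F b)) := rfl

lemma isLiePoisson [CharZero F] :
    IsLiePoisson (theta (F := F)) (SymmetricAlgebra.ι F (G F)) (P F) where
  gen x y := by
    rw [P_apply, e_iota, e_iota, pb_lin, ← e_iota, AlgEquiv.symm_apply_apply, cbr_eq]
  add a b c := by
    rw [P_apply, P_apply, P_apply, map_add, map_add, LinearMap.add_apply, map_add]
  smul t a b := by
    rw [P_apply, P_apply, map_smul, map_smul, LinearMap.smul_apply, map_smul]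
  skew a b := by
    rw [P_apply, P_apply, pb_skew, map_neg]
  leibniz a b c := by
    rw [P_apply, P_apply, P_apply, map_mul, pb_leibniz, map_add, map_mul, map_mul,
      AlgEquiv.symm_apply_apply, AlgEquiv.symm_apply_apply]

/-- the subalgebra of the symmetric algebra -/
noncomputable def B (F : Type u) [Field F] (d : ℕ) : Subalgebra F (SymmetricAlgebra F (G F)) :=
  (A F d).map ((e F).symm : MvPolynomial (Fin 6) F →ₐ[F] SymmetricAlgebra F (G F))

lemma mem_B (d : ℕ) (x : SymmetricAlgebra F (G F)) : x ∈ B F d ↔ e F x ∈ A F d := by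
  constructor
  · rintro ⟨y, hy, rfl⟩
    change e F ((e F).symm y) ∈ A F d
    rw [AlgEquiv.apply_symm_apply]
    exact hy
  · intro h
    exact ⟨e F x, h, (e F).symm_apply_apply x⟩

lemma maxComm [CharZero F] [IsAlgClosed F] {d : ℕ} (hd : d ≠ 0) : MaxComm (P F) (B F d) := by
  refine ⟨?_, ?_⟩
  · intro a ha b hb
    rw [P_apply, commutative hd _ ((mem_B d a).1 ha) _ ((mem_B d b).1 hb), map_zero]
  · intro B' hAB hB
    refine le_antisymm ?_ hAB
    intro b hb
    rw [mem_B]
    apply maximal hd
    intro x hx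
    have h1 : (e F).symm x ∈ B F d := by rw [mem_B, AlgEquiv.apply_symm_apply]; exact hx
    have h2 := hB _ (hAB h1) b hb
    rw [P_apply, AlgEquiv.apply_symm_apply] at h2
    have h3 := congrArg (e F) h2
    rwa [AlgEquiv.apply_symm_apply, map_zero] at h3

/-- the two subalgebras are isomorphic -/
noncomputable def eB (F : Type u) [Field F] (d : ℕ) : A F d ≃ₐ[F] B F d :=
  (A F d).equivMapOfInjective _ (e F).symm.injective

lemma trdeg_B [CharZero F] [IsAlgClosed F] {d : ℕ} (hd : d ≠ 0) :
    Algebra.trdeg F (B F d) = 4 := by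
  rw [← (eB F d).trdeg_eq, trdeg_A hd]

lemma minGens_B (d : ℕ) : MinGens F (B F d) (d + 3) := (minGens d).congr (eB F d)

/-- a polynomial subalgebra of transcendence degree four has four generators -/
lemma four_of_isPolynomial {S : Type u} [CommRing S] [IsDomain S] [Algebra F S]
    {B' : Subalgebra F S} (h : IsPolynomial B') (ht : Algebra.trdeg F B' = 4) :
    ∃ a : Fin 4 → B', Algebra.adjoin F (Set.range a) = ⊤ := by
  obtain ⟨s, hs, rfl⟩ := h
  have e := hs.aevalEquiv
  rw [Subtype.range_coe] at e
  rw [← e.trdeg_eq, MvPolynomial.trdeg_of_isDomain, Cardinal.lift_id] at ht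
  have h4 : Cardinal.mk s = Cardinal.mk (ULift.{u} (Fin 4)) := by
    rw [ht]; simp
  obtain ⟨f⟩ := Cardinal.eq.1 h4
  refine ⟨fun k => ⟨(f.symm ⟨k⟩ : s), Algebra.subset_adjoin (f.symm ⟨k⟩).2⟩, ?_⟩
  rw [eq_top_iff]
  rintro ⟨x, hx⟩ -
  induction hx using Algebra.adjoin_induction with
  | mem x hx =>
    refine Algebra.subset_adjoin ⟨(f ⟨x, hx⟩).down, Subtype.ext ?_⟩
    change ((f.symm (f ⟨x, hx⟩) : s) : S) = x
    rw [Equiv.symm_apply_apply]
  | algebraMap c => exact Subalgebra.algebraMap_mem _ c
  | add x y hx hy hx' hy' => exact Subalgebra.add_mem _ hx' hy'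
  | mul x y hx hy hx' hy' => exact Subalgebra.mul_mem _ hx' hy'

lemma not_isPolynomial [CharZero F] [IsAlgClosed F] {d : ℕ} (hd : 2 ≤ d) :
    ¬ IsPolynomial (B F d) := by
  intro h
  obtain ⟨a, ha⟩ := four_of_isPolynomial h (trdeg_B (by omega))
  have := (minGens_B (F := F) d).2 4 a ha
  omega

lemma theta_ne [CharZero F] : ∃ x : G F, theta x ≠ x := by
  refine ⟨mk6 0 0 0 1 0 0, fun h => ?_⟩
  have h1 : (-1 : F) = 1 := congrFun h 3
  have h2 : (2 : F) = 0 := by linear_combination -h1
  exact two_ne_zero h2

/-- Over every algebraically closed field `F` of characteristic zero there are a semisimple Lie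
algebra `g` and a nontrivial involution `θ` of `g` such that the contraction `k = g₀ ⋉ g₁` has the
codim-3 property, while for every `d ≥ 1` the algebra `S(k)` with its Lie-Poisson bracket has a
maximal commutative subalgebra `B d` of maximal dimension `(dim k + ind k) / 2` whose minimal number
of generators is `d + 3`. For `d ≥ 2` it is not a polynomial algebra, and `B c`, `B d` are not
isomorphic for `c ≠ d`. -/
theorem result (F : Type u) [Field F] [IsAlgClosed F] [CharZero F] :
    ∃ (g : Type u) (_ : LieRing g) (_ : LieAlgebra F g) (θ : g →ₗ⁅F⁆ g),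
      FiniteDimensional F g ∧ LieAlgebra.IsSemisimple F g ∧
      (∀ x, θ (θ x) = x) ∧ (∃ x, θ x ≠ x) ∧
      CodimProp θ (SymmetricAlgebra.ι F g) 3 ∧ UnboundedGens θ (SymmetricAlgebra.ι F g) := by
  refine ⟨G F, inferInstance, inferInstance, theta, inferInstance, isSemisimple,
    theta_theta, theta_ne, codimProp, P F, B F, isLiePoisson, ?_, ?_, ?_⟩
  · intro d hd
    refine ⟨maxComm (by omega), ?_, minGens_B d⟩
    rw [MaxDim, trdeg_B (by omega), finrank_G, index_eq]
    norm_num
  · intro d hd
    exact not_isPolynomial hd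
  · rintro c d - - ⟨φ⟩
    have := ((minGens_B (F := F) c).congr φ).unique (minGens_B d)
    omega

end Pool.Agent.Results.MP_26edac_al.UnboundedGenerators
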